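import Pool.Agent.W732.Ud.Stm
import Pool.Agent.W721.Cor.Mv

/-!
Project UD, part BALL: thick subsets of the ball (helper540).
-/

set_option autoImplicit false

open Metric Set Filter Topology Complex

namespace Pool.Agent.W540.Ud.Ball

open Pool.Agent.W732.Cor (V mv tau S_mv)
open Pool.Agent.W732.Ud
open Pool.Agent.W721.Cor.Mv

variable {m : ℕ}

/-- `mv p a x` is close to `a • p` when `|a|` is close to `1` -/
theorem mv_sub {p x : V m} (hp : ‖p‖ = 1) {a : ℂ} (ha : ‖a‖ < 1) (hx : x ∈ ball (0 : V m) 1) :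
    ‖mv p a x - a • p‖ ≤ ((1 - ‖a‖ ^ 2) + √(1 - ‖a‖ ^ 2) * 2) / (1 - ‖x‖) := by
  have hxi := inner_lt hp hx
  have hden := den_ne ha hxi
  rw [mem_ball_zero_iff] at hx
  set ξ : ℂ := inner ℂ p x with hξ
  have hxi2 : ‖ξ‖ ≤ ‖x‖ := by
    have := norm_inner_le_norm (𝕜 := ℂ) p x
    rw [hp, one_mul] at this
    exact this
  have h1 : mv p a x - a • p = (ξ * (1 - starRingEnd ℂ a * a) / (1 + starRingEnd ℂ a * ξ)) • p +
      (((√(1 - ‖a‖ ^ 2) : ℝ) : ℂ) / (1 + starRingEnd ℂ a * ξ)) • (x - ξ • p) := by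
    rw [mv, ← hξ]
    have e : a • p = ((1 / (1 + starRingEnd ℂ a * ξ)) * (a * (1 + starRingEnd ℂ a * ξ))) • p := by
      congr 1
      field_simp
    rw [e]
    module
  have hca : 1 - starRingEnd ℂ a * a = ((1 - ‖a‖ ^ 2 : ℝ) : ℂ) := by
    rw [mul_comm (starRingEnd ℂ a), Complex.mul_conj, Complex.normSq_eq_norm_sq]
    push_cast
    rfl
  have ha2 : 0 ≤ 1 - ‖a‖ ^ 2 := by nlinarith [norm_nonneg a]
  have hD : 1 - ‖x‖ ≤ ‖1 + starRingEnd ℂ a * ξ‖ := by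
    have h2 : ‖starRingEnd ℂ a * ξ‖ ≤ ‖x‖ := by
      rw [norm_mul, RCLike.norm_conj]
      nlinarith [norm_nonneg a, norm_nonneg ξ, norm_nonneg x]
    have h3 : ‖(1 : ℂ)‖ ≤ ‖1 + starRingEnd ℂ a * ξ‖ + ‖starRingEnd ℂ a * ξ‖ := by
      calc ‖(1 : ℂ)‖ = ‖(1 + starRingEnd ℂ a * ξ) - starRingEnd ℂ a * ξ‖ := by congr 1; ring
        _ ≤ _ := norm_sub_le _ _
    rw [norm_one] at h3
    linarith
  have hx1 : 0 < 1 - ‖x‖ := by linarith
  have hD0 : 0 < ‖1 + starRingEnd ℂ a * ξ‖ := by linarith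
  rw [h1]
  refine (norm_add_le _ _).trans ?_
  rw [norm_smul, norm_smul, norm_div, norm_div, norm_mul, hp, mul_one, hca, Complex.norm_real,
    Complex.norm_real, Real.norm_of_nonneg ha2, Real.norm_of_nonneg (Real.sqrt_nonneg _)]
  have hs := Real.sqrt_nonneg (1 - ‖a‖ ^ 2)
  have h4 : ‖x - ξ • p‖ ≤ 2 := by
    refine (norm_sub_le _ _).trans ?_
    rw [norm_smul, hp]
    linarith
  have h5 : ‖ξ‖ * (1 - ‖a‖ ^ 2) / ‖1 + starRingEnd ℂ a * ξ‖ +
      √(1 - ‖a‖ ^ 2) / ‖1 + starRingEnd ℂ a * ξ‖ * ‖x - ξ • p‖ =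
      (‖ξ‖ * (1 - ‖a‖ ^ 2) + √(1 - ‖a‖ ^ 2) * ‖x - ξ • p‖) / ‖1 + starRingEnd ℂ a * ξ‖ := by
    ring
  rw [h5]
  have h6 : ‖ξ‖ * (1 - ‖a‖ ^ 2) + √(1 - ‖a‖ ^ 2) * ‖x - ξ • p‖ ≤
      (1 - ‖a‖ ^ 2) + √(1 - ‖a‖ ^ 2) * 2 := by
    have h7 : ‖ξ‖ * (1 - ‖a‖ ^ 2) ≤ 1 * (1 - ‖a‖ ^ 2) :=
      mul_le_mul_of_nonneg_right hxi.le ha2
    have h8 := mul_le_mul_of_nonneg_left h4 hs
    linarith
  exact div_le_div₀ (by positivity) h6 hx1 hD

/-- the general construction -/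
theorem gen (hmv : S_mv) (X : Set (V m)) (p : ℕ → V m) (a : ℕ → ℂ) (R : ℕ → ℝ) (q : V m)
    (hp : ∀ n, ‖p n‖ = 1) (ha : ∀ n, ‖a n‖ < 1) (hR : ∀ n, R n < 1)
    (hR1 : Tendsto R atTop (𝓝 1)) (hX : ∀ n, MapsTo (mv (p n) (a n)) (ball 0 (R n)) X)
    (hq : ‖q‖ = 1) (hlim : Tendsto (fun n => a n • p n) atTop (𝓝 q)) :
    ∃ (U : ℕ → Set (V m)) (ψ G : ℕ → V m → V m) (P : V m → ℂ),
      Appr (ball (0 : V m) 1) (ball (0 : V m) 1) U ψ G P ∧ ∀ n, MapsTo (ψ n) (U n) X := by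
  have hab : ∀ n, a n ∈ ball (0 : ℂ) 1 := fun n => mem_ball_zero_iff.mpr (ha n)
  have hnab : ∀ n, -a n ∈ ball (0 : ℂ) 1 := fun n => mem_ball_zero_iff.mpr (by
    rw [norm_neg]; exact ha n)
  have hsub : ∀ n, ball (0 : V m) (R n) ⊆ ball 0 1 := fun n => ball_subset_ball (hR n).le
  refine ⟨fun n => ball 0 (R n), fun n => mv (p n) (a n), fun n => mv (p n) (-a n),
    fun z => inner ℂ q z, ?_, hX⟩
  refine ⟨isOpen_ball, ⟨isOpen_ball, fun n => isOpen_ball, hsub, ?_⟩,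
    (convex_ball (0 : V m) 1).isPreconnected, nonempty_ball.mpr one_pos, ?_, ?_, ?_, ?_, ?_, ?_,
    ?_, ?_⟩
  · intro K hK hKc
    rcases K.eq_empty_or_nonempty with h0 | h0
    · subst h0
      exact Eventually.of_forall fun n => empty_subset _
    · obtain ⟨x, hx, hmax⟩ := hKc.exists_isMaxOn h0 continuous_norm.continuousOn
      have hx1 : ‖x‖ < 1 := mem_ball_zero_iff.mp (hK hx)
      filter_upwards [hR1.eventually (lt_mem_nhds hx1)] with n hn y hy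
      rw [mem_ball_zero_iff]
      exact lt_of_le_of_lt (hmax hy) hn
  · intro n
    exact ((hmv m (p n) (hp n) (a n) (hab n)).1).mono (hsub n)
  · intro n
    exact ((hmv m (p n) (hp n) (a n) (hab n)).2.1).mono_left (hsub n)
  · intro n
    exact (hmv m (p n) (hp n) (-a n) (hnab n)).1
  · intro n
    exact (hmv m (p n) (hp n) (-a n) (hnab n)).2.1
  · intro K hK _
    rw [Metric.tendstoUniformlyOn_iff]
    intro ε hε
    refine Eventually.of_forall fun n x hx => ?_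
    have := (hmv m (p n) (hp n) (a n) (hab n)).2.2.1 x (hK hx)
    simp only [this, id, dist_self]
    exact hε
  · exact (innerSL ℂ q).differentiable.differentiableOn
  · intro z hz
    exact inner_lt hq hz
  · intro x hx
    have hna : Tendsto (fun n => ‖a n‖) atTop (𝓝 1) := by
      have h := hlim.norm
      rw [hq] at h
      refine h.congr fun n => ?_
      rw [norm_smul, hp n, mul_one]
    have hs : Tendsto (fun n => 1 - ‖a n‖ ^ 2) atTop (𝓝 0) := by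
      have h := (hna.pow 2).const_sub 1
      simpa using h
    have hs2 : Tendsto (fun n => √(1 - ‖a n‖ ^ 2)) atTop (𝓝 0) := by
      have h := (Real.continuous_sqrt.tendsto 0).comp hs
      simpa [Function.comp_def] using h
    have hb : Tendsto (fun n => ((1 - ‖a n‖ ^ 2) + √(1 - ‖a n‖ ^ 2) * 2) / (1 - ‖x‖)) atTop
        (𝓝 0) := by
      have h := ((hs.add (hs2.mul_const 2)).div_const (1 - ‖x‖))
      simpa using h
    have hd : Tendsto (fun n => mv (p n) (a n) x - a n • p n) atTop (𝓝 0) := by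
      rw [tendsto_zero_iff_norm_tendsto_zero]
      exact squeeze_zero (fun n => norm_nonneg _) (fun n => mv_sub (hp n) (ha n) hx) hb
    have hm : Tendsto (fun n => mv (p n) (a n) x) atTop (𝓝 q) := by
      have h := hd.add hlim
      simpa using h
    have h := ((innerSL ℂ q).continuous.tendsto q).comp hm
    have h1 : (innerSL ℂ q) q = 1 := by
      rw [innerSL_apply_apply]
      exact inner_pp hq
    rw [h1] at h
    exact h

/-- in the second case `X` contains the ball -/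
theorem caseB (hmv : S_mv) (X : Set (V m)) (p : ℕ → V m) (a : ℕ → ℂ) (R : ℕ → ℝ)
    (hp : ∀ n, ‖p n‖ = 1) (ha : ∀ n, ‖a n‖ < 1)
    (hR1 : Tendsto R atTop (𝓝 1)) (hX : ∀ n, MapsTo (mv (p n) (a n)) (ball 0 (R n)) X)
    (A : ℝ) (hA : A < 1) (hf : ∃ᶠ n in atTop, ‖a n‖ ≤ A) : ball (0 : V m) 1 ⊆ X := by
  intro x hx
  have hx1 : ‖x‖ < 1 := mem_ball_zero_iff.mp hx
  have hA0 : 0 ≤ A := by
    obtain ⟨n, hn⟩ := hf.exists
    exact (norm_nonneg _).trans hn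
  set B : ℝ := (1 - A ^ 2) * (1 - ‖x‖ ^ 2) / 4 with hB
  have hB0 : 0 < B := by
    have h1 : 0 < 1 - A ^ 2 := by nlinarith
    have h2 : 0 < 1 - ‖x‖ ^ 2 := by nlinarith [norm_nonneg x]
    positivity
  have hR2 : ∀ᶠ n in atTop, 1 - B < (R n) ^ 2 := by
    have h := hR1.pow 2
    rw [one_pow] at h
    exact h.eventually (lt_mem_nhds (by linarith))
  have hR3 : ∀ᶠ n in atTop, 0 < R n := hR1.eventually (lt_mem_nhds one_pos)
  obtain ⟨n, hn, hn2, hn3⟩ := (hf.and_eventually (hR2.and hR3)).exists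
  have hna : -a n ∈ ball (0 : ℂ) 1 := mem_ball_zero_iff.mpr (by rw [norm_neg]; exact ha n)
  obtain ⟨-, h2, h3, -, -⟩ := hmv m (p n) (hp n) (-a n) hna
  have h4 := h3 x hx
  rw [neg_neg] at h4
  rw [← h4]
  refine hX n ?_
  rw [mem_ball_zero_iff]
  -- the identity
  have hxi := inner_lt (hp n) hx
  have hna' : ‖-a n‖ < 1 := by rw [norm_neg]; exact ha n
  have hden := den_ne hna' hxi
  have hdec := norm_dec (hp n) x
  have hdec2 := norm_dec (hp n) (mv (p n) (-a n) x)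
  rw [perp_mv (hp n), inner_mv (hp n), norm_smul, norm_div, norm_div, mul_pow, div_pow,
    div_pow] at hdec2
  have hD : 0 < ‖1 + starRingEnd ℂ (-a n) * inner ℂ (p n) x‖ ^ 2 := by
    have := norm_pos_iff.mpr hden
    positivity
  have hl := lemA (-a n) (inner ℂ (p n) x)
  have ha2 : 0 ≤ 1 - ‖-a n‖ ^ 2 := by
    have := pow_le_one₀ (norm_nonneg (-a n)) hna'.le (n := 2)
    linarith only [this]
  have hsq : ‖((√(1 - ‖-a n‖ ^ 2) : ℝ) : ℂ)‖ ^ 2 = 1 - ‖-a n‖ ^ 2 := by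
    rw [Complex.norm_real, Real.norm_eq_abs, sq_abs, Real.sq_sqrt ha2]
  rw [hsq] at hdec2
  have h6 : ‖mv (p n) (-a n) x‖ ^ 2 * ‖1 + starRingEnd ℂ (-a n) * inner ℂ (p n) x‖ ^ 2 =
      ‖(inner ℂ (p n) x : ℂ) + -a n‖ ^ 2 +
        (1 - ‖-a n‖ ^ 2) * ‖x - (inner ℂ (p n) x : ℂ) • p n‖ ^ 2 := by
    rw [hdec2, add_mul, div_mul_cancel₀ _ hD.ne', mul_right_comm, div_mul_cancel₀ _ hD.ne']
  have hD4 : ‖1 + starRingEnd ℂ (-a n) * inner ℂ (p n) x‖ ^ 2 ≤ 4 := by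
    have h7 : ‖1 + starRingEnd ℂ (-a n) * inner ℂ (p n) x‖ ≤ 2 := by
      refine (norm_add_le _ _).trans ?_
      rw [norm_one, norm_mul, RCLike.norm_conj]
      have h71 := mul_le_one₀ hna'.le (norm_nonneg (inner ℂ (p n) x : ℂ)) hxi.le
      linarith only [h71]
    have h72 := pow_le_pow_left₀ (norm_nonneg _) h7 2
    linarith only [h72]
  -- (1 - |y|^2) D = (1 - |a|^2)(1 - |x|^2)
  have h8 : (1 - ‖mv (p n) (-a n) x‖ ^ 2) * ‖1 + starRingEnd ℂ (-a n) * inner ℂ (p n) x‖ ^ 2 =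
      (1 - ‖-a n‖ ^ 2) * (1 - ‖x‖ ^ 2) := by
    rw [hdec]
    linear_combination hl - h6
  have hy1 : ‖mv (p n) (-a n) x‖ < 1 := mem_ball_zero_iff.mp (h2 hx)
  have hy2 : 0 ≤ 1 - ‖mv (p n) (-a n) x‖ ^ 2 := by
    have := pow_le_one₀ (norm_nonneg (mv (p n) (-a n) x)) hy1.le (n := 2)
    linarith only [this]
  have h9 : (1 - A ^ 2) * (1 - ‖x‖ ^ 2) ≤ (1 - ‖-a n‖ ^ 2) * (1 - ‖x‖ ^ 2) := by
    have h91 : 0 ≤ 1 - ‖x‖ ^ 2 := by
      have := pow_le_one₀ (norm_nonneg x) hx1.le (n := 2)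
      linarith only [this]
    refine mul_le_mul_of_nonneg_right ?_ h91
    rw [norm_neg]
    have h92 := pow_le_pow_left₀ (norm_nonneg (a n)) hn 2
    linarith only [h92]
  have h10 : B ≤ 1 - ‖mv (p n) (-a n) x‖ ^ 2 := by
    have h11 : (1 - ‖mv (p n) (-a n) x‖ ^ 2) *
        ‖1 + starRingEnd ℂ (-a n) * inner ℂ (p n) x‖ ^ 2 ≤
        (1 - ‖mv (p n) (-a n) x‖ ^ 2) * 4 := mul_le_mul_of_nonneg_left hD4 hy2
    rw [hB]
    linarith only [h8, h9, h11]
  have h12 : ‖mv (p n) (-a n) x‖ ^ 2 < R n ^ 2 := by linarith only [h10, hn2]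
  exact lt_of_pow_lt_pow_left₀ 2 hn3.le h12

theorem rtend : Tendsto (fun n : ℕ => 1 - 1 / ((n : ℝ) + 2)) atTop (𝓝 1) := by
  have h : Tendsto (fun n : ℕ => 1 / ((n : ℝ) + 2)) atTop (𝓝 0) := by
    have h1 : Tendsto (fun n : ℕ => (n : ℝ) + 2) atTop atTop :=
      tendsto_atTop_add_const_right _ _ tendsto_natCast_atTop_atTop
    exact tendsto_const_nhds.div_atTop h1
  have h2 := h.const_sub 1
  simpa using h2

theorem rpos (n : ℕ) : 0 < 1 / ((n : ℝ) + 2) := by positivity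

theorem rle (n : ℕ) : 1 / ((n : ℝ) + 2) < 1 := by
  rw [div_lt_one (by positivity)]
  have : (0 : ℝ) ≤ n := Nat.cast_nonneg n
  linarith

theorem main (hmv : S_mv) : S_bl2 := by
  intro m X hXb hX
  choose! p a hp ha hm using hX
  set r : ℕ → ℝ := fun n => 1 - 1 / ((n : ℝ) + 2) with hr
  have hr1 : ∀ n, r n < 1 := fun n => by
    have := rpos n
    simp only [hr]
    linarith
  have hr0 : Tendsto r atTop (𝓝 1) := rtend
  by_cases hc : ∃ A : ℝ, A < 1 ∧ ∃ᶠ n in atTop, ‖a (r n)‖ ≤ A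
  · obtain ⟨A, hA, hf⟩ := hc
    have hB := caseB hmv X (fun n => p (r n)) (fun n => a (r n)) r (fun n => hp _ (hr1 n))
      (fun n => ha _ (hr1 n)) hr0 (fun n => hm _ (hr1 n)) A hA hf
    have hq : ‖p (r 0)‖ = 1 := hp _ (hr1 0)
    have hrn : ∀ n, ‖((r n : ℝ) : ℂ)‖ < 1 := fun n => by
      have h0 : 0 ≤ r n := by
        have := rle n
        simp only [hr]
        linarith
      rw [Complex.norm_real, Real.norm_of_nonneg h0]
      exact hr1 n
    refine gen hmv X (fun _ => p (r 0)) (fun n => ((r n : ℝ) : ℂ)) r (p (r 0)) (fun _ => hq)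
      hrn hr1 hr0 ?_ hq ?_
    · intro n z hz
      refine hB ((hmv m (p (r 0)) hq ((r n : ℝ) : ℂ) (mem_ball_zero_iff.mpr (hrn n))).2.1 ?_)
      exact ball_subset_ball (hr1 n).le hz
    · have h1 : Tendsto (fun n => ((r n : ℝ) : ℂ)) atTop (𝓝 ((1 : ℝ) : ℂ)) :=
        (Complex.continuous_ofReal.tendsto 1).comp hr0
      have h2 := h1.smul_const (p (r 0))
      simpa using h2
  · push Not at hc
    have hmem : ∀ n, a (r n) • p (r n) ∈ closedBall (0 : V m) 1 := fun n => by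
      rw [mem_closedBall_zero_iff, norm_smul, hp _ (hr1 n), mul_one]
      exact (ha _ (hr1 n)).le
    obtain ⟨q, -, φ, hφ, hlim⟩ := (isCompact_closedBall (0 : V m) 1).tendsto_subseq hmem
    have hna : Tendsto (fun n => ‖a (r n)‖) atTop (𝓝 1) := by
      rw [tendsto_order]
      refine ⟨fun b hb => ?_, fun b hb => ?_⟩
      · have h := hc b hb
        exact h
      · exact Eventually.of_forall fun n => (ha _ (hr1 n)).trans hb
    have hq : ‖q‖ = 1 := by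
      have h1 := hlim.norm
      have h2 : Tendsto (fun n => ‖a (r (φ n))‖) atTop (𝓝 1) := hna.comp hφ.tendsto_atTop
      have h3 : Tendsto (fun n => ‖a (r (φ n))‖) atTop (𝓝 ‖q‖) := by
        refine h1.congr fun n => ?_
        simp only [Function.comp_apply]
        rw [norm_smul, hp _ (hr1 _), mul_one]
      exact tendsto_nhds_unique h3 h2
    exact gen hmv X (fun n => p (r (φ n))) (fun n => a (r (φ n))) (fun n => r (φ n)) q
      (fun n => hp _ (hr1 _)) (fun n => ha _ (hr1 _)) (fun n => hr1 _)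
      (hr0.comp hφ.tendsto_atTop) (fun n => hm _ (hr1 _)) hq hlim

end Pool.Agent.W540.Ud.Ball
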